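import Pool.Agent.Work.MP_b44cb1_al.Full.HH3.Tower
import Pool.Agent.Work.MP_b44cb1_al.Law
import Pool.Agent.Work.MP_b44cb1_al.HH.Final

/-!
# HH3/Final : reduction to weak towers with large odd primes (helper81)
-/

set_option autoImplicit false

namespace Pool.Agent.Work.MP_b44cb1_al.HH3

open Subgroup
open scoped commutatorElement

theorem red_one {G : Type*} [Group G] [Finite G] {p : ℕ} (hp : p.Prime) (t m : ℕ)
    (hPL : HH.PL p t G) (h : res^[t * (m + 1)] (⊤ : Subgroup G) ≠ ⊥) :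
    ∃ A B : Subgroup G, A.Normal ∧ B.Normal ∧ A ≤ B ∧ (∀ g ∈ B, ∃ a : ℕ, ¬ p ∣ a ∧ g ^ a ∈ A) ∧
      ¬ res^[m] B ≤ A := by
  by_contra hcon
  push Not at hcon
  obtain ⟨N, h0, ht, hN⟩ := hPL
  have key : ∀ i ≤ t, res^[i * (m + 1)] (N i) = ⊥ := by
    intro i
    induction i with
    | zero =>
      intro _
      rw [h0, zero_mul]
      rfl
    | succ i ih =>
      intro hi
      obtain ⟨hn, hn', hle, hf⟩ := hN i (by omega)
      have h1 : res^[m + 1] (N (i + 1)) ≤ N i := by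
        rcases hf with hf | hf
        · have h2 := res_le_of_pgroup hp (N (i + 1)) (N i) hn hf
          exact (resI_anti (N (i + 1)) (by omega : 1 ≤ m + 1)).trans h2
        · have h2 := hcon (N i) (N (i + 1)) hn hn' hle hf
          exact (resI_anti (N (i + 1)) (by omega : m ≤ m + 1)).trans h2
      rw [add_mul, one_mul, Function.iterate_add_apply]
      have h3 := resI_mono h1 (i * (m + 1))
      rw [ih (by omega)] at h3
      exact le_bot_iff.1 h3
  apply h
  rw [← ht]
  exact key t le_rfl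

theorem red (r m : ℕ) (S : Finset ℕ) : (∀ p ∈ S, p.Prime ∧ p ≠ 2) →
    ∃ N : ℕ, ∀ (G : Type) [Group G] [Finite G], Group.IsSolvable G → ∀ s : ℕ, r < s →
      Law r s G → res^[N] (⊤ : Subgroup G) ≠ ⊥ →
      ∃ (H : Type) (_ : Group H) (_ : Finite H), Group.IsSolvable H ∧ Law r s H ∧
        (∀ l : ℕ, l.Prime → l ∣ Nat.card H → l ∣ Nat.card G ∧ l ∉ S) ∧
        res^[m] (⊤ : Subgroup H) ≠ ⊥ := by
  classical
  induction S using Finset.induction_on with
  | empty =>
    intro _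
    refine ⟨m, fun G _ _ hs s _ hlaw hres => ⟨G, inferInstance, inferInstance, hs, hlaw,
      fun l _ hl => ⟨hl, Finset.notMem_empty l⟩, hres⟩⟩
  | insert p S hpS ih =>
    intro hS
    obtain ⟨N, hN⟩ := ih fun q hq => hS q (Finset.mem_insert_of_mem hq)
    obtain ⟨hp, hp2⟩ := hS p (Finset.mem_insert_self _ _)
    have : Fact p.Prime := ⟨hp⟩
    refine ⟨(4 * r + 3) * (N + 1), fun G _ _ hs s hrs hlaw hres => ?_⟩
    obtain ⟨A, B, hA, hB, hAB, hBA, hresB⟩ := red_one hp (4 * r + 3) N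
      (HH.hh_odd r hp hp2 G hs (eng_of_law hp hrs hlaw)) hres
    have hn : (A.subgroupOf B).Normal := hA.comap B.subtype
    have hsB : Group.IsSolvable B := by
      have := hs
      infer_instance
    have hsH : Group.IsSolvable (B ⧸ A.subgroupOf B) := by
      have := hsB
      infer_instance
    obtain ⟨H, iG, iF, hsH', hlaw', hprime, hres'⟩ := hN (B ⧸ A.subgroupOf B) hsH s hrs
      (law_quot (law_sub hlaw B) _) (fun hbot => hresB (resI_section A B hAB N hbot))
    have hpH : ¬ p ∣ Nat.card (B ⧸ A.subgroupOf B) := by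
      intro hd
      obtain ⟨x, hx⟩ := exists_prime_orderOf_dvd_card' p hd
      obtain ⟨g, rfl⟩ := QuotientGroup.mk_surjective x
      obtain ⟨a, ha, hga⟩ := hBA g g.2
      apply ha
      rw [← hx]
      apply orderOf_dvd_of_pow_eq_one
      rw [← QuotientGroup.mk_pow, QuotientGroup.eq_one_iff, mem_subgroupOf]
      exact hga
    have hcard : Nat.card (B ⧸ A.subgroupOf B) ∣ Nat.card G :=
      (Subgroup.card_quotient_dvd_card _).trans (Subgroup.card_subgroup_dvd_card B)
    refine ⟨H, iG, iF, hsH', hlaw', fun l hl hd => ?_, hres'⟩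
    obtain ⟨h1, h2⟩ := hprime l hl hd
    refine ⟨h1.trans hcard, ?_⟩
    rw [Finset.mem_insert, not_or]
    refine ⟨?_, h2⟩
    rintro rfl
    exact hpH h1

/-- Block HH: large nilpotent height gives long weak towers with large odd primes (in a section). -/
theorem hh_final (r P₀ n : ℕ) (hn : 1 ≤ n) :
    ∃ N : ℕ, ∀ (G : Type) [Group G] [Finite G], Group.IsSolvable G → ∀ s : ℕ, r < s →
      Law r s G → res^[N] (⊤ : Subgroup G) ≠ ⊥ →
      ∃ (H : Type) (_ : Group H) (_ : Finite H), Group.IsSolvable H ∧ Law r s H ∧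
        ∃ (P : ℕ → Subgroup H) (p : ℕ → ℕ), WTow P p n ∧ (∀ i < n, P₀ < p i ∧ p i ≠ 2) ∧
          Ech P (n - 1) ≠ ⊥ := by
  classical
  set S : Finset ℕ := (Finset.range (max P₀ (2 * r) + 1)).filter (fun p => p.Prime ∧ p ≠ 2) with hS
  obtain ⟨N, hN⟩ := red r (2 * (n - 1) + 2) S (fun p hp => (Finset.mem_filter.1 hp).2)
  refine ⟨N, fun G _ _ hs s hrs hlaw hres => ?_⟩
  obtain ⟨H, iG, iF, hsH, hlawH, hprime, hresH⟩ := hN G hs s hrs hlaw hres
  have hbig : ∀ p : ℕ, p.Prime → p ∣ Nat.card H → p ≠ 2 → max P₀ (2 * r) < p := by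
    intro p hp hd hp2
    by_contra hle
    apply (hprime p hp hd).2
    rw [hS, Finset.mem_filter, Finset.mem_range]
    exact ⟨by omega, hp, hp2⟩
  obtain ⟨P, p, T, hp, hE⟩ := wtow_rec r (max P₀ (2 * r)) (le_max_right _ _) (n - 1) H hsH
    (fun p hp => eng_of_law hp hrs hlawH) hbig ⊥ inferInstance
    (fun hle => hresH (le_bot_iff.1 hle))
  have e : n - 1 + 1 = n := by omega
  rw [e] at T hp
  refine ⟨H, iG, iF, hsH, hlawH, P, p, T, fun i hi => ⟨?_, (hp i hi).2⟩, fun h => hE h.le⟩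
  exact (le_max_left _ _).trans_lt (hp i hi).1

end Pool.Agent.Work.MP_b44cb1_al.HH3
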