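import Pool.Agent.Work.MP_b44cb1_al.Full.HH3.OddChief
import Pool.Agent.Work.MP_b44cb1_al.CopKit
import Pool.Agent.Work.MP_b44cb1_al.HH.LpOne

/-!
# HH3/Cent : for `p ≥ 2 r`, `p`-elements centralise the chief factors of exponent `p` (helper81)
-/

set_option autoImplicit false

namespace Pool.Agent.Work.MP_b44cb1_al.HH3

open Subgroup
open scoped commutatorElement

/-- The law implies that `p`-subgroups are `r`-Engel. -/
theorem eng_of_law {G : Type*} [Group G] [Finite G] {r s p : ℕ} (hp : p.Prime) (hrs : r < s)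
    (h : Law r s G) : HH.EngP p r G := by
  intro P hP x hx y hy
  have : Fact p.Prime := ⟨hp⟩
  obtain ⟨c, hc⟩ := (Subgroup.isNilpotent_iff_lowerCentralSeries P).1 hP.isNilpotent
  have h1 : ∀ n, (phi y)^[n] x ∈ P.lowerCentralSeries n := by
    intro n
    induction n with
    | zero => exact hx
    | succ n ih =>
      rw [Function.iterate_succ_apply', Subgroup.lowerCentralSeries_succ]
      have h2 := commutator_mem_commutator (inv_mem ih) (inv_mem hy)
      rw [commutatorElement_def] at h2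
      simpa [phi] using h2
  have h2 : ∀ n, (phi y)^[r] x = (phi y)^[r + n * (s - r)] x := by
    intro n
    induction n with
    | zero => simp
    | succ n ih =>
      have e : r + (n + 1) * (s - r) = n * (s - r) + s := by
        have : r + (s - r) = s := by omega
        rw [add_mul, one_mul]
        omega
      rw [e, Function.iterate_add_apply, ← h x y, ← Function.iterate_add_apply, ih, add_comm]
  rw [h2 c]
  have h3 : P.lowerCentralSeries (r + c * (s - r)) ≤ P.lowerCentralSeries c :=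
    Subgroup.lowerCentralSeries_antitone P (by
      have : c * 1 ≤ c * (s - r) := Nat.mul_le_mul_left c (by omega)
      omega)
  have h4 := h3 (h1 _)
  rw [hc, Subgroup.mem_bot] at h4
  exact h4

theorem pfix {L : Type*} [Group L] [Finite L] {p : ℕ} (hp : p.Prime) (S M : Subgroup L)
    (hS : IsPGroup p S) (hM : IsPGroup p M) (hM0 : M ≠ ⊥) (hn : Nz S M) :
    ∃ m ∈ M, m ≠ 1 ∧ ∀ s ∈ S, s * m = m * s := by
  have : Fact p.Prime := ⟨hp⟩
  letI : MulDistribMulAction S M := cjAct hn
  have hd : p ∣ Nat.card M := by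
    obtain ⟨k, hk⟩ := IsPGroup.iff_card.1 hM
    rcases Nat.eq_zero_or_pos k with h0 | h0
    · exact absurd (Subgroup.card_eq_one.1 (by rw [hk, h0, pow_zero])) hM0
    · rw [hk]
      exact dvd_pow_self p (by omega)
  have h1 : (1 : M) ∈ MulAction.fixedPoints S M := by
    intro s
    exact smul_one s
  obtain ⟨b, hb, hb1⟩ := hS.exists_fixed_point_of_prime_dvd_card_of_fixed_point M hd h1
  refine ⟨b, b.2, fun h => hb1 (Subtype.ext h.symm), fun s hs => ?_⟩
  have h2 := congrArg Subtype.val (hb ⟨s, hs⟩)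
  have h3 : s * (b : L) * s⁻¹ = b := h2
  exact mul_inv_eq_iff_eq_mul.1 h3

theorem cent_big {K : Type} [Group K] [Finite K] (hs : Group.IsSolvable K) {r p : ℕ}
    (hp : p.Prime) (hrp : 2 * r ≤ p) (hE : HH.EngP p r K) {N M : Subgroup K} (hch : Chf p N M)
    (x : K) (hx : HH.PEl p x) (m : K) (hm : m ∈ M) : x * m * x⁻¹ * m⁻¹ ∈ N := by
  classical
  have : Fact p.Prime := ⟨hp⟩
  obtain ⟨A, B, hA, hB, hAB, hpA, hBA, hpB⟩ := HH.lp_one' r hp hrp K hs hE
  have := hch.nN
  have := hch.nM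
  set π := QuotientGroup.mk' N with hπ
  have hsurj : Function.Surjective π := QuotientGroup.mk'_surjective N
  have hker : ∀ x, π x = 1 ↔ x ∈ N := fun x => by
    rw [hπ]
    exact QuotientGroup.eq_one_iff x
  -- `x ∈ B`
  have hxB : x ∈ B := by
    obtain ⟨k, hk⟩ := hx
    have h1 : (QuotientGroup.mk' B x) ^ p ^ k = 1 := by rw [← map_pow, hk, map_one]
    have h2 : orderOf (QuotientGroup.mk' B x) ∣ p ^ k := orderOf_dvd_of_pow_eq_one h1
    have h3 : orderOf (QuotientGroup.mk' B x) ∣ B.index := orderOf_dvd_natCard _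
    have h4 : Nat.Coprime (p ^ k) B.index :=
      Nat.Coprime.pow_left k ((Nat.Prime.coprime_iff_not_dvd hp).2 hpB)
    have h5 : orderOf (QuotientGroup.mk' B x) = 1 := Nat.eq_one_of_dvd_coprimes h4 h2 h3
    rw [orderOf_eq_one_iff] at h5
    exact (QuotientGroup.eq_one_iff x).1 h5
  -- `A` centralises `M / N`
  have hAM : ∀ a ∈ A, ∀ y ∈ M, a * y * a⁻¹ * y⁻¹ ∈ N := by
    intro a ha y hy
    have h1 : a * y * a⁻¹ * y⁻¹ ∈ A := by
      have h2 := hA.conj_mem _ (inv_mem ha) y
      have h3 : a * y * a⁻¹ * y⁻¹ = a * (y * a⁻¹ * y⁻¹) := by group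
      rw [h3]; exact mul_mem ha h2
    have h2 : a * y * a⁻¹ * y⁻¹ ∈ M := mul_mem (hch.nM.conj_mem _ hy a) (inv_mem hy)
    have h3 : orderOf (a * y * a⁻¹ * y⁻¹) ∣ Nat.card A := by
      have := orderOf_dvd_natCard (⟨_, h1⟩ : A)
      rwa [Subgroup.orderOf_mk] at this
    have h4 : p.Coprime (orderOf (a * y * a⁻¹ * y⁻¹)) :=
      (Nat.Prime.coprime_iff_not_dvd hp).2 (fun hd => hpA (hd.trans h3))
    obtain ⟨t, ht⟩ := exists_pow_eq_self_of_coprime h4
    rw [← ht]
    exact pow_mem (hch.expo _ h2) t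
  -- the fixed points
  have hMp : IsPGroup p (M.map π) := by
    rintro ⟨_, y, hy, rfl⟩
    refine ⟨1, ?_⟩
    apply Subtype.ext
    show (π y) ^ p ^ 1 = 1
    rw [pow_one, ← map_pow]
    exact (hker _).2 (hch.expo y hy)
  have hM0 : M.map π ≠ ⊥ := by
    intro h
    rw [Subgroup.map_eq_bot_iff, hπ, QuotientGroup.ker_mk'] at h
    exact lt_irrefl _ (hch.lt.trans_le h)
  have hMn : (M.map π).Normal := hch.nM.map π hsurj
  obtain ⟨P⟩ : Nonempty (Sylow p K) := inferInstance
  obtain ⟨m₀, hm₀, hm₀1, hfix⟩ := pfix hp ((P : Subgroup K).map π) (M.map π) (P.isPGroup'.map _)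
    hMp hM0 (fun g _ d hd => hMn.conj_mem d hd g)
  -- `B ≤ A P`
  have hBP : ∀ b ∈ B, ∃ s ∈ (P : Subgroup K), s⁻¹ * b ∈ A := by
    intro b hb
    have h1 : IsPGroup p (B.map (QuotientGroup.mk' A)) := by
      rintro ⟨_, y, hy, rfl⟩
      obtain ⟨j, hj⟩ := hBA y hy
      refine ⟨j, ?_⟩
      apply Subtype.ext
      show (QuotientGroup.mk' A y) ^ p ^ j = 1
      rw [← map_pow]
      exact (QuotientGroup.eq_one_iff _).2 hj
    have : (B.map (QuotientGroup.mk' A)).Normal := hB.map _ (QuotientGroup.mk'_surjective A)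
    have h2 := h1.le_sylow_of_normal (P.mapSurjective (QuotientGroup.mk'_surjective A))
    obtain ⟨s, hs', hsb⟩ := h2 (Subgroup.mem_map_of_mem _ hb)
    refine ⟨s, hs', ?_⟩
    rw [← QuotientGroup.eq]
    exact hsb
  set Z : Subgroup (K ⧸ N) := M.map π ⊓ centralizer (B.map π : Set (K ⧸ N)) with hZ
  have hZn : Z.Normal := by
    have h1 : (B.map π).Normal := hB.map π hsurj
    have h2 : (centralizer (B.map π : Set (K ⧸ N))).Normal := Subgroup.normal_centralizer
    exact Subgroup.normal_inf_normal _ _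
  have hm₀Z : m₀ ∈ Z := by
    refine ⟨hm₀, ?_⟩
    show m₀ ∈ centralizer (B.map π : Set (K ⧸ N))
    rw [mem_centralizer_iff]
    rintro _ ⟨b, hb, rfl⟩
    obtain ⟨s, hs', hsb⟩ := hBP b hb
    obtain ⟨y, hy, rfl⟩ := hm₀
    have h1 := hfix (π s) (Subgroup.mem_map_of_mem _ hs')
    have h2 := hAM _ hsb y hy
    have h3 : π (s⁻¹ * b) * π y = π y * π (s⁻¹ * b) := by
      rw [← hker] at h2
      simp only [map_mul, map_inv] at h2
      rw [mul_inv_eq_one, mul_inv_eq_iff_eq_mul] at h2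
      simpa using h2
    have h4 : b = s * (s⁻¹ * b) := by group
    rw [h4, map_mul, mul_assoc, h3, ← mul_assoc, h1, mul_assoc]
  have h1 : N < Z.comap π := by
    refine lt_of_le_of_ne ?_ ?_
    · intro y hy
      rw [Subgroup.mem_comap, (hker y).2 hy]
      exact one_mem _
    · intro h
      obtain ⟨y, rfl⟩ := hsurj m₀
      have : y ∈ Z.comap π := hm₀Z
      rw [← h] at this
      exact hm₀1 ((hker y).2 this)
  have h2 : Z.comap π ≤ M := by
    intro y hy
    obtain ⟨y', hy', e⟩ := hy.1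
    have h3 : y'⁻¹ * y ∈ N := by
      rw [← hker, map_mul, map_inv, e, inv_mul_cancel]
    have h4 : y = y' * (y'⁻¹ * y) := by group
    rw [h4]
    exact mul_mem hy' (hch.lt.le h3)
  have h3 := hch.min _ (hZn.comap π) h1 h2
  have h4 : m ∈ Z.comap π := by rw [h3]; exact hm
  have h5 := (mem_centralizer_iff.1 h4.2) (π x) (Subgroup.mem_map_of_mem _ hxB)
  rw [← hker]
  simp only [map_mul, map_inv]
  rw [h5]
  group

end Pool.Agent.Work.MP_b44cb1_al.HH3
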