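import Pool.Agent.Work.MP_b44cb1_al.E3A
import Pool.Agent.Work.MP_b44cb1_al.ResQ
import Pool.Agent.Work.MP_b44cb1_al.HH.Cop

/-!
# HH3/Chief : chief factors, a group all of whose odd chief factors are central (helper81)
-/

set_option autoImplicit false

namespace Pool.Agent.Work.MP_b44cb1_al.HH3

open Subgroup
open scoped commutatorElement

/-- `M / N` is a chief factor of `K` of exponent `p`. -/
structure Chf (p : ℕ) {K : Type*} [Group K] (N M : Subgroup K) : Prop where
  nN : N.Normal
  nM : M.Normal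
  lt : N < M
  min : ∀ R : Subgroup K, R.Normal → N < R → R ≤ M → R = M
  comm : ∀ x ∈ M, ∀ y ∈ M, x * y * x⁻¹ * y⁻¹ ∈ N
  expo : ∀ x ∈ M, x ^ p ∈ N

theorem chief_above {K : Type*} [Group K] [Finite K] (hs : Group.IsSolvable K) (N C : Subgroup K)
    (hN : N.Normal) (hC : C.Normal) (h : N < C) :
    ∃ (M : Subgroup K) (q : ℕ), q.Prime ∧ M ≤ C ∧ Chf q N M := by
  classical
  obtain ⟨M, ⟨hMn, hNM, hMC⟩, hmin⟩ := Set.exists_min_image
    {M : Subgroup K | M.Normal ∧ N < M ∧ M ≤ C} (fun M => Nat.card M)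
    (Set.toFinite _) ⟨C, hC, h, le_rfl⟩
  obtain ⟨M', hM'n, hNM', hM'M, hcom, q, hq, hexp⟩ := min_above hs N M hN hMn hNM
  have e : M' = M :=
    Subgroup.eq_of_le_of_card_ge hM'M (hmin M' ⟨hM'n, hNM', hM'M.trans hMC⟩)
  subst e
  refine ⟨M', q, hq, hMC, hN, hMn, hNM, ?_, hcom, hexp⟩
  intro R hR hNR hRM
  exact Subgroup.eq_of_le_of_card_ge hRM (hmin R ⟨hR, hNR, hRM.trans hMC⟩)

/-- iterated commutators are monotone -/
theorem itc_mono {K : Type*} [Group K] {X Y R S : Subgroup K} (h : X ≤ Y) (hRS : R ≤ S) (c : ℕ) :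
    (fun Z : Subgroup K => ⁅Z, R⁆)^[c] X ≤ (fun Z : Subgroup K => ⁅Z, S⁆)^[c] Y := by
  induction c with
  | zero => exact h
  | succ c ih =>
    rw [Function.iterate_succ_apply', Function.iterate_succ_apply']
    exact commutator_mono ih hRS

/-- A finite `2`-group `S ≤ K` normal in a normal subgroup `M` in which it is a Sylow subgroup is
normal in `K`. -/
theorem sylow_normal {K : Type*} [Group K] [Finite K] {p : ℕ} (hp : p.Prime) (M : Subgroup K)
    (hM : M.Normal) (P : Sylow p M) (hP : (P : Subgroup M).Normal) :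
    ((P : Subgroup M).map M.subtype).Normal := by
  haveI : Fact p.Prime := ⟨hp⟩
  haveI := hM
  haveI : (P : Subgroup M).Characteristic := Sylow.characteristic_of_normal P hP
  exact ConjAct.normal_of_characteristic_of_normal

theorem odd_core {K : Type*} [Group K] [Finite K] (hs : Group.IsSolvable K) (R : Subgroup K)
    (hR : R.Normal) (ha : ∀ M : Subgroup K, M.Normal → M ≤ R → IsPGroup 2 M → M = ⊥)
    (hb : ∀ (N M : Subgroup K) (q : ℕ), q.Prime → q ≠ 2 → M ≤ R → Chf q N M → ⁅M, R⁆ ≤ N) :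
    res R = ⊥ := by
  classical
  haveI : Fact (Nat.Prime 2) := ⟨Nat.prime_two⟩
  let s : Set (Subgroup K) := {Z | Z.Normal ∧ Z ≤ R ∧ ∃ c, (fun X : Subgroup K => ⁅X, R⁆)^[c] Z = ⊥}
  obtain ⟨Z, hZ⟩ := (Set.toFinite s).exists_maximal ⟨⊥, inferInstance, bot_le, 0, rfl⟩
  obtain ⟨hZn, hZR, c, hc⟩ := hZ.prop
  by_cases hlt : Z = R
  · subst hlt
    exact le_bot_iff.1 ((res_le_lcs Z c).trans (le_of_eq hc))
  exfalso
  obtain ⟨M, q, hq, hMR, hch⟩ := chief_above hs Z R hZn hR (lt_of_le_of_ne hZR hlt)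
  by_cases h2 : q = 2
  · subst h2
    -- `Z` has odd order
    have hZnil : Group.IsNilpotent Z := by
      have h1 : ∀ n, Z.lowerCentralSeries n ≤ (fun X : Subgroup K => ⁅X, R⁆)^[n] Z := by
        intro n
        induction n with
        | zero => exact le_rfl
        | succ n ih =>
          rw [Function.iterate_succ_apply', Subgroup.lowerCentralSeries_succ]
          exact commutator_mono ih hZR
      have h2 := h1 c
      rw [hc, le_bot_iff] at h2
      exact Subgroup.isNilpotent_of_lowerCentralSeries_eq_bot h2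
    have hZodd : ¬ 2 ∣ Nat.card Z := by
      obtain ⟨P⟩ : Nonempty (Sylow 2 Z) := inferInstance
      have hPn : (P : Subgroup Z).Normal := inferInstance
      have h1 := ha _ (sylow_normal Nat.prime_two Z hZn P hPn) ((Subgroup.map_subtype_le _).trans hZR)
        (P.isPGroup'.map _)
      rw [Subgroup.map_eq_bot_iff_of_injective _ Z.subtype_injective] at h1
      have h3 := P.not_dvd_index
      rw [h1, Subgroup.index_bot] at h3
      exact h3
    obtain ⟨P⟩ : Nonempty (Sylow 2 M) := inferInstance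
    set S : Subgroup K := (P : Subgroup M).map M.subtype with hS
    have hSM : S ≤ M := Subgroup.map_subtype_le _
    have hSp : IsPGroup 2 S := P.isPGroup'.map _
    have hZS : ⁅Z, S⁆ = ⊥ := by
      have h1 := HH.ccomm Nat.prime_two Z S hSp hZodd (fun g _ d hd => hZn.conj_mem d hd g)
      have h2 : ∀ n, ⁅Z, S⁆ ≤ (fun X : Subgroup K => ⁅X, S⁆)^[n] Z := by
        intro n
        induction n with
        | zero => exact comm_le_left (fun g _ d hd => hZn.conj_mem d hd g)
        | succ n ih =>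
          rw [Function.iterate_succ_apply', ← h1]
          exact commutator_mono ih le_rfl
      have h3 := itc_mono (X := Z) (Y := Z) le_rfl (hSM.trans hMR) c
      rw [hc] at h3
      exact le_bot_iff.1 ((h2 c).trans h3)
    -- `M = Z ⊔ S`
    have hn : (Z.subgroupOf M).Normal := hZn.comap M.subtype
    have htop : Z.subgroupOf M ⊔ (P : Subgroup M) = ⊤ := by
      have h1 : IsPGroup 2 (M ⧸ Z.subgroupOf M) := by
        intro g
        obtain ⟨g, rfl⟩ := QuotientGroup.mk_surjective g
        refine ⟨1, ?_⟩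
        rw [pow_one, ← QuotientGroup.mk_pow, QuotientGroup.eq_one_iff, mem_subgroupOf]
        exact hch.expo g g.2
      obtain ⟨k, hk⟩ := IsPGroup.iff_card.1 h1
      have h2 : (Z.subgroupOf M ⊔ (P : Subgroup M)).index ∣ 2 ^ k := by
        have := Subgroup.index_dvd_of_le (le_sup_left : Z.subgroupOf M ≤ Z.subgroupOf M ⊔ (P : Subgroup M))
        rwa [Subgroup.index_eq_card (Z.subgroupOf M), hk] at this
      have h3 := Subgroup.index_dvd_of_le
        (le_sup_right : (P : Subgroup M) ≤ Z.subgroupOf M ⊔ (P : Subgroup M))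
      have h4 : Nat.Coprime (2 ^ k) (P : Subgroup M).index :=
        Nat.Coprime.pow_left k ((Nat.Prime.coprime_iff_not_dvd Nat.prime_two).2 P.not_dvd_index)
      rw [← Subgroup.index_eq_one]
      exact Nat.eq_one_of_dvd_coprimes h4 h2 h3
    have hMZS : M ≤ Z ⊔ S := by
      intro x hx
      have h1 : (⟨x, hx⟩ : M) ∈ Z.subgroupOf M ⊔ (P : Subgroup M) := by rw [htop]; trivial
      have h2 := Subgroup.mem_map_of_mem M.subtype h1
      rw [Subgroup.map_sup, Subgroup.subgroupOf_map_subtype] at h2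
      exact (sup_le_sup inf_le_left le_rfl : Z ⊓ M ⊔ S ≤ Z ⊔ S) h2
    have hSn : (P : Subgroup M).Normal := by
      rw [← Subgroup.normalizer_eq_top_iff, eq_top_iff, ← htop]
      refine sup_le ?_ Subgroup.le_normalizer
      have hcz : ∀ z ∈ Z.subgroupOf M, ∀ x ∈ (P : Subgroup M), z * x * z⁻¹ = x := by
        intro z hz x hx
        have h1 := commutator_mem_commutator (mem_subgroupOf.1 hz)
          (Subgroup.mem_map_of_mem M.subtype hx)
        rw [← hS, hZS, Subgroup.mem_bot, commutatorElement_def] at h1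
        apply Subtype.ext
        have h2 : (z : K) * x * (z : K)⁻¹ * (x : K)⁻¹ = 1 := h1
        exact mul_inv_eq_one.1 h2
      intro z hz
      rw [Subgroup.mem_normalizer_iff]
      intro x
      constructor
      · intro hx
        rw [hcz z hz x hx]
        exact hx
      · intro hx
        have h1 := hcz z⁻¹ (inv_mem hz) _ hx
        have h2 : z⁻¹ * (z * x * z⁻¹) * z⁻¹⁻¹ = x := by group
        rw [h2] at h1
        rw [h1]
        exact hx
    have h1 := ha S (sylow_normal Nat.prime_two M hch.nM P hSn) (hSM.trans hMR) hSp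
    rw [h1, sup_bot_eq] at hMZS
    exact (lt_irrefl _ (hch.lt.trans_le hMZS))
  · have h1 := hb Z M q hq h2 hMR hch
    have h3 : M ∈ s := by
      refine ⟨hch.nM, hMR, c + 1, ?_⟩
      rw [Function.iterate_succ_apply]
      exact le_bot_iff.1 ((itc_mono h1 le_rfl c).trans (le_of_eq hc))
    exact (lt_irrefl _ (hch.lt.trans_le (hZ.le_of_ge h3 hch.lt.le)))

end Pool.Agent.Work.MP_b44cb1_al.HH3
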