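import Pool.Agent.Work.MP_b44cb1_al.Full.HH3.Final
import Pool.Agent.Work.MP_b44cb1_al.Full.Assembly

/-!
# HH3/Main : block HH in the form used by the assembly (helper81)
-/

set_option autoImplicit false

namespace Pool.Agent.Work.MP_b44cb1_al

open Subgroup

theorem hhm (r : ℕ) : HHm r := by
  intro P0 n hn
  obtain ⟨N, hN⟩ := HH3.hh_final r P0 n hn
  exact ⟨N, fun G _ _ s hs hrs hlaw hres => hN G hs s hrs hlaw hres⟩

end Pool.Agent.Work.MP_b44cb1_al
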