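import Pool.Agent.Work.MP_b44cb1_al.Full.HH3.Chief

/-!
# HH3/OddChief : an odd chief factor not centralised by `R` (helper81)
-/

set_option autoImplicit false

namespace Pool.Agent.Work.MP_b44cb1_al.HH3

open Subgroup
open scoped commutatorElement

theorem res_of_nilp {K : Type*} [Group K] (X : Subgroup K) (h : Group.IsNilpotent X) :
    res X = ⊥ := by
  obtain ⟨n, hn⟩ := (Subgroup.isNilpotent_iff_lowerCentralSeries X).1 h
  have h1 : ∀ m, lcs X m = X.lowerCentralSeries m := by
    intro m
    induction m with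
    | zero => rfl
    | succ m ih => rw [lcs_succ, ih, Subgroup.lowerCentralSeries_succ]
  exact le_bot_iff.1 ((res_le_lcs X n).trans (by rw [h1, hn]))

theorem res_of_pgroup {K : Type*} [Group K] [Finite K] {p : ℕ} (hp : p.Prime) (X : Subgroup K)
    (h : IsPGroup p X) : res X = ⊥ := by
  have : Fact p.Prime := ⟨hp⟩
  exact res_of_nilp X h.isNilpotent

/-- If `X / C` is a `p`-group then `res X ≤ C`. -/
theorem res_le_of_pgroup {K : Type*} [Group K] [Finite K] {p : ℕ} (hp : p.Prime)
    (X C : Subgroup K) (hC : C.Normal) (h : ∀ x ∈ X, ∃ k : ℕ, x ^ p ^ k ∈ C) : res X ≤ C := by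
  have h1 : IsPGroup p (X.map (QuotientGroup.mk' C)) := by
    rintro ⟨_, x, hx, rfl⟩
    obtain ⟨k, hk⟩ := h x hx
    refine ⟨k, ?_⟩
    apply Subtype.ext
    show (QuotientGroup.mk' C x) ^ p ^ k = 1
    rw [← map_pow]
    exact (QuotientGroup.eq_one_iff _).2 hk
  have h2 := res_of_pgroup hp _ h1
  rw [res_map, Subgroup.map_eq_bot_iff, QuotientGroup.ker_mk'] at h2
  exact h2

theorem chf_comap {K L : Type*} [Group K] [Group L] (f : K →* L) (hf : Function.Surjective f)
    {p : ℕ} {N M : Subgroup L} (h : Chf p N M) : Chf p (N.comap f) (M.comap f) := by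
  refine ⟨h.nN.comap f, h.nM.comap f, ?_, ?_, ?_, ?_⟩
  · rw [Subgroup.comap_lt_comap_of_surjective hf]
    exact h.lt
  · intro R hR hNR hRM
    have hker : f.ker ≤ N.comap f := by
      intro x hx
      rw [MonoidHom.mem_ker] at hx
      rw [Subgroup.mem_comap, hx]
      exact one_mem _
    have e1 : (R.map f).comap f = R := by
      rw [Subgroup.comap_map_eq, sup_eq_left]
      exact hker.trans hNR.le
    have h1 : N < R.map f := by
      rw [← Subgroup.comap_lt_comap_of_surjective hf, e1]
      exact hNR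
    have h2 : R.map f ≤ M := Subgroup.map_le_iff_le_comap.2 hRM
    rw [← e1, h.min _ (hR.map f hf) h1 h2]
  · intro x hx y hy
    rw [Subgroup.mem_comap] at *
    simp only [map_mul, map_inv]
    exact h.comm _ hx _ hy
  · intro x hx
    rw [Subgroup.mem_comap] at *
    rw [map_pow]
    exact h.expo _ hx

theorem odd_chief {K : Type*} [Group K] [Finite K] (hs : Group.IsSolvable K) (R C : Subgroup K)
    (hR : R.Normal) (hC : C.Normal) (h : ¬ res^[2] R ≤ C) :
    ∃ (N M : Subgroup K) (p : ℕ), p.Prime ∧ p ≠ 2 ∧ Chf p N M ∧ C ≤ N ∧ ¬ ⁅M, R⁆ ≤ N := by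
  classical
  by_contra hcon
  push Not at hcon
  apply h
  let s : Set (Subgroup K) := {O | O.Normal ∧ C ≤ O ∧ O ≤ R ⊔ C ∧ ∀ x ∈ O, ∃ k : ℕ, x ^ 2 ^ k ∈ C}
  obtain ⟨O, hO⟩ := (Set.toFinite s).exists_maximal
    ⟨C, hC, le_rfl, le_sup_right, fun x hx => ⟨0, by simpa using hx⟩⟩
  obtain ⟨hOn, hCO, hOR, hO2⟩ := hO.prop
  set π := QuotientGroup.mk' O with hπ
  have hsurj : Function.Surjective π := QuotientGroup.mk'_surjective O
  have hker : ∀ x, π x = 1 ↔ x ∈ O := fun x => by
    rw [hπ]
    exact QuotientGroup.eq_one_iff x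
  have hsq : Group.IsSolvable (K ⧸ O) := by
    have := hs
    infer_instance
  have hres : res (R.map π) = ⊥ := by
    apply odd_core hsq (R.map π) (hR.map π hsurj)
    · intro M hM hMR hM2
      have h1 : M.comap π ∈ s := by
        refine ⟨hM.comap π, ?_, ?_, ?_⟩
        · intro x hx
          rw [Subgroup.mem_comap, (hker x).2 (hCO hx)]
          exact one_mem _
        · intro x hx
          obtain ⟨r, hr, hrx⟩ := hMR (Subgroup.mem_comap.1 hx)
          have h2 : r⁻¹ * x ∈ O := by
            rw [← hker, map_mul, map_inv, hrx, inv_mul_cancel]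
          have h3 : x = r * (r⁻¹ * x) := by group
          rw [h3]
          exact mul_mem (mem_sup_left hr) (hOR h2)
        · intro x hx
          obtain ⟨k, hk⟩ := hM2 ⟨π x, hx⟩
          have hk' : (π x) ^ 2 ^ k = 1 := by
            have := congrArg Subtype.val hk
            simpa using this
          rw [← map_pow, hker] at hk'
          obtain ⟨k', hk'⟩ := hO2 _ hk'
          refine ⟨k + k', ?_⟩
          rw [pow_add, pow_mul]
          exact hk'
      have h2 : O ≤ M.comap π := by
        intro x hx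
        rw [Subgroup.mem_comap, (hker x).2 hx]
        exact one_mem _
      have h3 := hO.le_of_ge h1 h2
      rw [Subgroup.eq_bot_iff_forall]
      intro y hy
      obtain ⟨x, rfl⟩ := hsurj y
      exact (hker x).2 (h3 hy)
    · intro N M q hq hq2 hMR hch
      have h1 := hcon (N.comap π) (M.comap π) q hq hq2 (chf_comap π hsurj hch) (by
        intro x hx
        rw [Subgroup.mem_comap, (hker x).2 (hCO hx)]
        exact one_mem _)
      have h2 := Subgroup.map_mono (f := π) h1
      rw [Subgroup.map_commutator, Subgroup.map_comap_eq_self_of_surjective hsurj,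
        Subgroup.map_comap_eq_self_of_surjective hsurj] at h2
      exact h2
  rw [res_map, Subgroup.map_eq_bot_iff, hπ, QuotientGroup.ker_mk'] at hres
  have e : res^[2] R = res (res R) := rfl
  rw [e]
  exact (res_mono hres).trans (res_le_of_pgroup Nat.prime_two O C hC hO2)

end Pool.Agent.Work.MP_b44cb1_al.HH3
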