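import Pool.Agent.Work.MP_b44cb1_al.Full.HH3.Cent

/-!
# HH3/Step : one step of the construction of weak towers (helper81)
-/

set_option autoImplicit false

namespace Pool.Agent.Work.MP_b44cb1_al.HH3

open Subgroup
open scoped commutatorElement

/-- All `p`-elements lie in a normal subgroup of index prime to `p`. -/
theorem pel_mem {K : Type*} [Group K] [Finite K] {p : ℕ} (hp : p.Prime) (D : Subgroup K)
    (hD : D.Normal) (hi : ¬ p ∣ D.index) (x : K) {k : ℕ} (hk : x ^ p ^ k = 1) : x ∈ D := by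
  have h1 : (QuotientGroup.mk' D x) ^ p ^ k = 1 := by rw [← map_pow, hk, map_one]
  have h2 : orderOf (QuotientGroup.mk' D x) ∣ p ^ k := orderOf_dvd_of_pow_eq_one h1
  have h3 : orderOf (QuotientGroup.mk' D x) ∣ D.index := orderOf_dvd_natCard _
  have h4 : Nat.Coprime (p ^ k) D.index :=
    Nat.Coprime.pow_left k ((Nat.Prime.coprime_iff_not_dvd hp).2 hi)
  have h5 : orderOf (QuotientGroup.mk' D x) = 1 := Nat.eq_one_of_dvd_coprimes h4 h2 h3
  rw [orderOf_eq_one_iff] at h5
  exact (QuotientGroup.eq_one_iff x).1 h5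

/-- A `p'`-supplement of a normal subgroup of index prime to `p`. -/
theorem psup {L : Type*} [Group L] [Finite L] {p : ℕ} (hp : p.Prime) (D : Subgroup L)
    (hD : D.Normal) (hi : ¬ p ∣ D.index) :
    ∃ K : Subgroup L, ¬ p ∣ Nat.card K ∧ K ⊔ D = ⊤ := by
  have : Fact p.Prime := ⟨hp⟩
  obtain ⟨Q⟩ : Nonempty (Sylow p L) := inferInstance
  have hQD : (Q : Subgroup L) ≤ D := by
    intro x hx
    obtain ⟨k, hk⟩ := Q.isPGroup' ⟨x, hx⟩
    have hk' : x ^ p ^ k = 1 := by
      have := congrArg Subtype.val hk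
      simpa using this
    exact pel_mem hp D hD hi x hk'
  have hFr := Sylow.normalizer_sup_eq_top' (N := D) Q hQD
  set N₀ : Subgroup L := normalizer ((Q : Subgroup L) : Set L) with hN₀
  have hQL : (Q : Subgroup L) ≤ N₀ := Subgroup.le_normalizer
  set Q₀ : Subgroup N₀ := (Q : Subgroup L).subgroupOf N₀ with hQ₀
  have hQ₀n : Q₀.Normal := Subgroup.normal_in_normalizer
  have hQ₀i : ¬ p ∣ Q₀.index := by
    intro hd
    apply Q.not_dvd_index
    exact hd.trans (Subgroup.relIndex_dvd_index_of_le hQL)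
  have hQ₀p : IsPGroup p Q₀ := Q.isPGroup'.comap_subtype
  have hcop : Nat.Coprime (Nat.card Q₀) Q₀.index := by
    obtain ⟨k, hk⟩ := (IsPGroup.iff_card).1 hQ₀p
    rw [hk]
    exact Nat.Coprime.pow_left k ((Nat.Prime.coprime_iff_not_dvd hp).2 hQ₀i)
  obtain ⟨K₀, hK₀⟩ := exists_right_complement'_of_coprime hcop
  refine ⟨K₀.map N₀.subtype, ?_, ?_⟩
  · have h1 : Nat.card (K₀.map N₀.subtype) = Nat.card K₀ :=
      Nat.card_congr (K₀.equivMapOfInjective _ N₀.subtype_injective).toEquiv.symm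
    rw [h1, ← hK₀.symm.index_eq_card]
    exact hQ₀i
  · have h1 : (Q₀ ⊔ K₀).map N₀.subtype = N₀ := by
      rw [hK₀.sup_eq_top, ← MonoidHom.range_eq_map, Subgroup.range_subtype]
    rw [Subgroup.map_sup] at h1
    have h2 : Q₀.map N₀.subtype ≤ D := by
      rintro _ ⟨x, hx, rfl⟩
      exact hQD hx
    have h3 : N₀ ≤ K₀.map N₀.subtype ⊔ D :=
      h1.ge.trans (sup_le (h2.trans le_sup_right) le_sup_left)
    rw [eq_top_iff]
    exact hFr.ge.trans (sup_le h3 le_sup_right)

theorem tstep {K : Type} [Group K] [Finite K] (hs : Group.IsSolvable K) {r : ℕ}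
    (hE : ∀ p : ℕ, p.Prime → HH.EngP p r K)
    (hbig : ∀ p : ℕ, p.Prime → p ∣ Nat.card K → p ≠ 2 → 2 * r ≤ p)
    (R C : Subgroup K) (hR : R.Normal) (hC : C.Normal) (h : ¬ res^[2] R ≤ C) :
    ∃ (p : ℕ) (T K₁ D : Subgroup K), p.Prime ∧ p ≠ 2 ∧ p ∣ Nat.card K ∧ IsPGroup p T ∧
      Nz K₁ T ∧ ¬ p ∣ Nat.card K₁ ∧ D.Normal ∧ K₁ ⊔ D = ⊤ ∧ ¬ R ≤ D ∧
      (∀ X : Subgroup K, ¬ X ≤ D → ¬ ⁅T, X⁆ ≤ C) ∧ ¬ T ≤ C := by
  classical
  obtain ⟨N, M, p, hp, hp2, hch, hCN, hMR⟩ := odd_chief hs R C hR hC h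
  have : Fact p.Prime := ⟨hp⟩
  have := hch.nN
  have := hch.nM
  set π := QuotientGroup.mk' N with hπ
  have hsurj : Function.Surjective π := QuotientGroup.mk'_surjective N
  have hker : ∀ x, π x = 1 ↔ x ∈ N := fun x => by
    rw [hπ]
    exact QuotientGroup.eq_one_iff x
  obtain ⟨P⟩ : Nonempty (Sylow p M) := inferInstance
  set T : Subgroup K := (P : Subgroup M).map M.subtype with hT
  have hTM : T ≤ M := Subgroup.map_subtype_le _
  have hTp : IsPGroup p T := P.isPGroup'.map _
  -- `M = N T`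
  have hMNT : M ≤ N ⊔ T := by
    have hn : (N.subgroupOf M).Normal := hch.nN.comap M.subtype
    have htop : N.subgroupOf M ⊔ (P : Subgroup M) = ⊤ := by
      have h1 : IsPGroup p (M ⧸ N.subgroupOf M) := by
        intro g
        obtain ⟨g, rfl⟩ := QuotientGroup.mk_surjective g
        refine ⟨1, ?_⟩
        rw [pow_one, ← QuotientGroup.mk_pow, QuotientGroup.eq_one_iff, mem_subgroupOf]
        exact hch.expo g g.2
      obtain ⟨k, hk⟩ := IsPGroup.iff_card.1 h1
      have h2 : (N.subgroupOf M ⊔ (P : Subgroup M)).index ∣ p ^ k := by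
        have := Subgroup.index_dvd_of_le
          (le_sup_left : N.subgroupOf M ≤ N.subgroupOf M ⊔ (P : Subgroup M))
        rwa [Subgroup.index_eq_card (N.subgroupOf M), hk] at this
      have h3 := Subgroup.index_dvd_of_le
        (le_sup_right : (P : Subgroup M) ≤ N.subgroupOf M ⊔ (P : Subgroup M))
      have h4 : Nat.Coprime (p ^ k) (P : Subgroup M).index :=
        Nat.Coprime.pow_left k ((Nat.Prime.coprime_iff_not_dvd hp).2 P.not_dvd_index)
      rw [← Subgroup.index_eq_one]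
      exact Nat.eq_one_of_dvd_coprimes h4 h2 h3
    intro x hx
    have h1 : (⟨x, hx⟩ : M) ∈ N.subgroupOf M ⊔ (P : Subgroup M) := by rw [htop]; trivial
    have h2 := Subgroup.mem_map_of_mem M.subtype h1
    rw [Subgroup.map_sup, Subgroup.subgroupOf_map_subtype] at h2
    exact (sup_le_sup inf_le_left le_rfl : N ⊓ M ⊔ T ≤ N ⊔ T) h2
  have hTC : ¬ T ≤ C := by
    intro h1
    have h2 : M ≤ N := hMNT.trans (sup_le le_rfl (h1.trans hCN))
    exact lt_irrefl _ (hch.lt.trans_le h2)
  have hpK : p ∣ Nat.card K := by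
    obtain ⟨k, hk⟩ := IsPGroup.iff_card.1 hTp
    have h1 : k ≠ 0 := by
      rintro rfl
      apply hTC
      rw [pow_zero] at hk
      rw [Subgroup.card_eq_one.1 hk]
      exact bot_le
    have h2 := Subgroup.card_subgroup_dvd_card T
    rw [hk] at h2
    exact (dvd_pow_self p h1).trans h2
  -- `D`
  set D : Subgroup K := (centralizer (M.map π : Set (K ⧸ N))).comap π with hD
  have hDn : D.Normal := by
    have h1 : (M.map π).Normal := hch.nM.map π hsurj
    have h2 : (centralizer (M.map π : Set (K ⧸ N))).Normal := Subgroup.normal_centralizer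
    exact h2.comap π
  have hmemD : ∀ x, x ∈ D ↔ ∀ m ∈ M, x * m * x⁻¹ * m⁻¹ ∈ N := by
    intro x
    rw [hD, Subgroup.mem_comap, mem_centralizer_iff]
    constructor
    · intro hx m hm
      have h1 := hx (π m) (Subgroup.mem_map_of_mem _ hm)
      rw [← hker]
      simp only [map_mul, map_inv]
      rw [← h1]
      group
    · rintro hx _ ⟨m, hm, rfl⟩
      have h1 := hx m hm
      rw [← hker] at h1
      simp only [map_mul, map_inv] at h1
      rw [mul_inv_eq_one, mul_inv_eq_iff_eq_mul] at h1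
      exact h1.symm
  have hND : N ≤ D := by
    intro x hx
    rw [hmemD]
    intro m hm
    have h1 := hch.nN.conj_mem _ (inv_mem hx) m
    have h2 : x * m * x⁻¹ * m⁻¹ = x * (m * x⁻¹ * m⁻¹) := by group
    rw [h2]
    exact mul_mem hx h1
  have hDi : ¬ p ∣ D.index := by
    obtain ⟨S⟩ : Nonempty (Sylow p K) := inferInstance
    have h1 : (S : Subgroup K) ≤ D := by
      intro x hx
      obtain ⟨k, hk⟩ := S.isPGroup' ⟨x, hx⟩
      have hk' : x ^ p ^ k = 1 := by
        have := congrArg Subtype.val hk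
        simpa using this
      rw [hmemD]
      exact cent_big hs hp (hbig p hp hpK hp2) (hE p hp) hch x ⟨k, hk'⟩
    exact fun hd => S.not_dvd_index (hd.trans (Subgroup.index_dvd_of_le h1))
  have hRD : ¬ R ≤ D := by
    intro h1
    apply hMR
    rw [commutator_comm, commutator_le]
    intro x hx m hm
    exact (hmemD x).1 (h1 hx) m hm
  have hX : ∀ X : Subgroup K, ¬ X ≤ D → ¬ ⁅T, X⁆ ≤ C := by
    intro X hX h1
    apply hX
    intro x hx
    rw [hD, Subgroup.mem_comap, mem_centralizer_iff]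
    rintro _ ⟨m, hm, rfl⟩
    have h2 : π m ∈ (N ⊔ T).map π := Subgroup.mem_map_of_mem _ (hMNT hm)
    have h3 : N.map π = ⊥ := by rw [Subgroup.map_eq_bot_iff, hπ, QuotientGroup.ker_mk']
    rw [Subgroup.map_sup, h3, bot_sup_eq] at h2
    obtain ⟨t, ht, e⟩ := h2
    rw [← e]
    have h4 := hCN (h1 (commutator_mem_commutator ht hx))
    rw [← hker, commutatorElement_def] at h4
    simp only [map_mul, map_inv] at h4
    rw [mul_inv_eq_one, mul_inv_eq_iff_eq_mul] at h4
    exact h4
  -- Frattini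
  set L : Subgroup K := normalizer (T : Set K) with hL
  have hLD : L ⊔ D = ⊤ := by
    have h1 := Sylow.normalizer_sup_eq_top (N := M) P
    have h2 : T ≤ L := Subgroup.le_normalizer
    rw [eq_top_iff]
    refine h1.ge.trans (sup_le le_sup_left ?_)
    exact hMNT.trans (sup_le (hND.trans le_sup_right) (h2.trans le_sup_left))
  have hDL : (D.subgroupOf L).Normal := hDn.comap L.subtype
  have hDLi : ¬ p ∣ (D.subgroupOf L).index := by
    intro hd
    apply hDi
    have h1 : D.relIndex L = D.index := by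
      rw [← Subgroup.relIndex_top_right, ← hLD]
      exact (Subgroup.relIndex_sup_right L D).symm
    rw [← h1]
    exact hd
  obtain ⟨K₀, hK₀p, hK₀⟩ := psup hp (D.subgroupOf L) hDL hDLi
  refine ⟨p, T, K₀.map L.subtype, D, hp, hp2, hpK, hTp, ?_, ?_, hDn, ?_, hRD, hX, hTC⟩
  · rw [nz_iff]
    exact Subgroup.map_subtype_le K₀
  · have h1 : Nat.card (K₀.map L.subtype) = Nat.card K₀ :=
      Nat.card_congr (K₀.equivMapOfInjective _ L.subtype_injective).toEquiv.symm
    rw [h1]
    exact hK₀p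
  · have h1 : (K₀ ⊔ D.subgroupOf L).map L.subtype = L := by
      rw [hK₀, ← MonoidHom.range_eq_map, Subgroup.range_subtype]
    rw [Subgroup.map_sup, Subgroup.subgroupOf_map_subtype] at h1
    rw [eq_top_iff, ← hLD]
    exact sup_le (h1.ge.trans (sup_le_sup le_rfl inf_le_left)) le_sup_right

end Pool.Agent.Work.MP_b44cb1_al.HH3
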