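import Pool.Agent.Work.MP_b44cb1_al.Full.HH3.Step
import Pool.Agent.Work.MP_b44cb1_al.Full.Base

/-!
# HH3/Tower : weak towers with large primes (helper81)
-/

set_option autoImplicit false

namespace Pool.Agent.Work.MP_b44cb1_al.HH3

open Subgroup
open scoped commutatorElement

theorem eng_sub {K : Type*} [Group K] {p r : ℕ} (h : HH.EngP p r K) (H : Subgroup K) :
    HH.EngP p r H := by
  intro P hP x hx y hy
  apply H.subtype_injective
  rw [map_phi_iter, map_one]
  exact h (P.map H.subtype) (hP.map _) _ (Subgroup.mem_map_of_mem _ hx) _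
    (Subgroup.mem_map_of_mem _ hy)

theorem wtow_rec (r P₀ : ℕ) (hr : 2 * r ≤ P₀) : ∀ (n : ℕ) (K : Type) [Group K] [Finite K],
    Group.IsSolvable K → (∀ p : ℕ, p.Prime → HH.EngP p r K) →
    (∀ p : ℕ, p.Prime → p ∣ Nat.card K → p ≠ 2 → P₀ < p) →
    ∀ C : Subgroup K, C.Normal → ¬ res^[2 * n + 2] (⊤ : Subgroup K) ≤ C →
    ∃ (P : ℕ → Subgroup K) (p : ℕ → ℕ), WTow P p (n + 1) ∧
      (∀ i < n + 1, P₀ < p i ∧ p i ≠ 2) ∧ ¬ Ech P n ≤ C := by
  intro n
  induction n with
  | zero =>
    intro K _ _ hs hE hbig C hC h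
    obtain ⟨p, T, K₁, D, hp, hp2, hpK, hTp, -, -, -, -, -, -, hTC⟩ := tstep hs hE
      (fun p hp hpK hp2 => hr.trans (hbig p hp hpK hp2).le) ⊤ C inferInstance hC h
    refine ⟨fun _ => T, fun _ => p, ⟨fun _ _ => hp, fun _ _ => hTp, ?_, ?_⟩,
      fun _ _ => ⟨hbig p hp hpK hp2, hp2⟩, hTC⟩
    · intro i hi
      obtain rfl : i = 0 := by omega
      intro g hg d hd
      rw [gs_zero, Subgroup.mem_bot] at hg
      rw [hg]
      simpa using hd
    · intro i hi
      obtain rfl : i = 0 := by omega
      rw [gs_zero, Subgroup.card_bot]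
      exact hp.one_lt.ne' ∘ Nat.dvd_one.1
  | succ n ih =>
    intro K _ _ hs hE hbig C hC h
    have e : res^[2 * (n + 1) + 2] (⊤ : Subgroup K) = res^[2] (res^[2 * n + 2] (⊤ : Subgroup K)) := by
      rw [← Function.iterate_add_apply]
      congr 1
      ring_nf
    rw [e] at h
    obtain ⟨p, T, K₁, D, hp, hp2, hpK, hTp, hK₁T, hpK₁, hDn, hKD, hRD, hX, hTC⟩ := tstep hs hE
      (fun p hp hpK hp2 => hr.trans (hbig p hp hpK hp2).le) (res^[2 * n + 2] ⊤) C
      (resI_normal inferInstance _) hC h
    have hsK : Group.IsSolvable K₁ := by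
      have := hs
      infer_instance
    have hDK : (D.subgroupOf K₁).Normal := hDn.comap K₁.subtype
    have hres : ¬ res^[2 * n + 2] (⊤ : Subgroup K₁) ≤ D.subgroupOf K₁ := by
      intro hle
      apply hRD
      apply resI_sup_quot K₁ D hKD
      rw [← resI_sub K₁]
      rintro _ ⟨x, hx, rfl⟩
      exact hle hx
    obtain ⟨P', p', T', hbig', hE'⟩ := ih K₁ hsK (fun p hp => eng_sub (hE p hp) K₁)
      (fun p hp hd => hbig p hp (hd.trans (Subgroup.card_subgroup_dvd_card K₁))) (D.subgroupOf K₁)
      hDK hres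
    let P : ℕ → Subgroup K := fun i => if i < n + 1 then (P' i).map K₁.subtype else T
    let q : ℕ → ℕ := fun i => if i < n + 1 then p' i else p
    have hP : ∀ i, i < n + 1 → P i = (P' i).map K₁.subtype := fun i hi => if_pos hi
    have hPn : P (n + 1) = T := if_neg (lt_irrefl _)
    have hq : ∀ i, i < n + 1 → q i = p' i := fun i hi => if_pos hi
    have hqn : q (n + 1) = p := if_neg (lt_irrefl _)
    have hGs : ∀ i ≤ n + 1, Gs P i = (Gs P' i).map K₁.subtype := by
      intro i
      induction i with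
      | zero =>
        intro _
        rw [gs_zero, gs_zero, Subgroup.map_bot]
      | succ i ihi =>
        intro hi
        rw [gs_succ, gs_succ, Subgroup.map_sup, ihi (by omega), hP i (by omega)]
    have hEch : ∀ i ≤ n, Ech P i = (Ech P' i).map K₁.subtype := by
      intro i
      induction i with
      | zero =>
        intro _
        exact hP 0 (by omega)
      | succ i ihi =>
        intro hi
        show ⁅P (i + 1), Ech P i⁆ = (⁅P' (i + 1), Ech P' i⁆ : Subgroup K₁).map K₁.subtype
        rw [Subgroup.map_commutator, ihi (by omega), hP (i + 1) (by omega)]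
    have hcard : ∀ X : Subgroup K₁, Nat.card (X.map K₁.subtype) = Nat.card X := fun X =>
      Nat.card_congr (X.equivMapOfInjective _ K₁.subtype_injective).toEquiv.symm
    refine ⟨P, q, ⟨?_, ?_, ?_, ?_⟩, ?_, ?_⟩
    · intro i hi
      rcases Nat.lt_or_ge i (n + 1) with h1 | h1
      · rw [hq i h1]
        exact T'.prime i h1
      · obtain rfl : i = n + 1 := by omega
        rw [hqn]
        exact hp
    · intro i hi
      rcases Nat.lt_or_ge i (n + 1) with h1 | h1
      · rw [hq i h1, hP i h1]
        exact (T'.pgrp i h1).map _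
      · obtain rfl : i = n + 1 := by omega
        rw [hqn, hPn]
        exact hTp
    · intro i hi
      rcases Nat.lt_or_ge i (n + 1) with h1 | h1
      · rw [hGs i h1.le, hP i h1]
        rintro _ ⟨g, hg, rfl⟩ _ ⟨d, hd, rfl⟩
        exact ⟨g * d * g⁻¹, T'.norm i h1 g hg d hd, by simp⟩
      · obtain rfl : i = n + 1 := by omega
        rw [hGs _ le_rfl, hPn]
        exact hK₁T.mono (Subgroup.map_subtype_le _)
    · intro i hi
      rcases Nat.lt_or_ge i (n + 1) with h1 | h1
      · rw [hGs i h1.le, hq i h1, hcard]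
        exact T'.cop i h1
      · obtain rfl : i = n + 1 := by omega
        rw [hGs _ le_rfl, hqn, hcard]
        intro hd
        exact hpK₁ (hd.trans (Subgroup.card_subgroup_dvd_card _))
    · intro i hi
      rcases Nat.lt_or_ge i (n + 1) with h1 | h1
      · rw [hq i h1]
        exact hbig' i h1
      · obtain rfl : i = n + 1 := by omega
        rw [hqn]
        exact ⟨hbig p hp hpK hp2, hp2⟩
    · have h1 : ¬ Ech P n ≤ D := by
        rw [hEch n le_rfl]
        intro hle
        apply hE'
        intro x hx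
        exact hle (Subgroup.mem_map_of_mem _ hx)
      have h2 := hX _ h1
      show ¬ ⁅P (n + 1), Ech P n⁆ ≤ C
      rw [hPn]
      exact h2

end Pool.Agent.Work.MP_b44cb1_al.HH3
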